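import Mathlib

/-!
# MP_305fdd_al: Krull intersection over all maximal ideals; finite quotients of finitely generated
rings
-/

set_option autoImplicit false

namespace Pool.Agent.Lib.MP_305fdd_al.Rep

/-- membership in a submodule of a finite module over a noetherian ring can be tested modulo all
powers of all maximal ideals -/
theorem mem_of_forall_pow {A : Type*} [CommRing A] [IsNoetherianRing A] {N : Type*}
    [AddCommGroup N] [Module A N] [Module.Finite A N] (W : Submodule A N) (y : N)
    (h : ∀ 𝔪 : Ideal A, 𝔪.IsMaximal → ∀ k : ℕ, y ∈ W ⊔ 𝔪 ^ k • (⊤ : Submodule A N)) :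
    y ∈ W := by
  rw [← Submodule.Quotient.mk_eq_zero]
  set x : N ⧸ W := Submodule.Quotient.mk y with hx
  by_contra hne
  -- the annihilator of `x` is proper
  have hproper : Ideal.torsionOf A (N ⧸ W) x ≠ ⊤ := by
    intro htop
    have : (1 : A) ∈ Ideal.torsionOf A (N ⧸ W) x := htop ▸ Submodule.mem_top
    rw [Ideal.mem_torsionOf_iff, one_smul] at this
    exact hne this
  obtain ⟨𝔪, hm, hle⟩ := Ideal.exists_le_maximal _ hproper
  have hmem : x ∈ (⨅ k : ℕ, 𝔪 ^ k • (⊤ : Submodule A (N ⧸ W))) := by
    rw [Submodule.mem_iInf]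
    intro k
    obtain ⟨w, hw, z, hz, hwz⟩ := Submodule.mem_sup.1 (h 𝔪 hm k)
    have h1 : x = W.mkQ z := by
      rw [hx, ← hwz]
      change W.mkQ (w + z) = _
      rw [map_add, (Submodule.Quotient.mk_eq_zero W).2 hw |> (id : _ → W.mkQ w = 0), zero_add]
    rw [h1]
    have h2 : W.mkQ z ∈ Submodule.map W.mkQ (𝔪 ^ k • (⊤ : Submodule A N)) :=
      Submodule.mem_map_of_mem hz
    rw [Submodule.map_smul''] at h2
    exact Submodule.smul_mono le_rfl le_top h2
  rw [Ideal.mem_iInf_smul_pow_eq_bot_iff] at hmem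
  obtain ⟨c, hc⟩ := hmem
  have h3 : (1 - (c : A)) ∈ Ideal.torsionOf A (N ⧸ W) x := by
    rw [Ideal.mem_torsionOf_iff, sub_smul, one_smul, hc, sub_self]
  have h4 : (1 : A) ∈ 𝔪 := by
    have := 𝔪.add_mem (hle h3) c.2
    simpa using this
  exact hm.ne_top ((Ideal.eq_top_iff_one _).2 h4)

theorem eq_zero_of_forall_pow {A : Type*} [CommRing A] [IsNoetherianRing A] (y : A)
    (h : ∀ 𝔪 : Ideal A, 𝔪.IsMaximal → ∀ k : ℕ, y ∈ 𝔪 ^ k) : y = 0 := by
  have := mem_of_forall_pow (N := A) (⊥ : Submodule A A) y fun 𝔪 hm k => by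
    have h1 := h 𝔪 hm k
    have h2 : y = y • (1 : A) := by simp
    rw [h2]
    exact Submodule.mem_sup_right (Submodule.smul_mem_smul h1 Submodule.mem_top)
  simpa using this

theorem mem_pow_smul_top {A : Type*} [CommRing A] {κ : Type*} [Finite κ] (J : Ideal A)
    (f : κ → A) (hf : ∀ j, f j ∈ J) : f ∈ J • (⊤ : Submodule A (κ → A)) := by
  classical
  cases nonempty_fintype κ
  have : f = ∑ j, f j • (Pi.single j (1 : A) : κ → A) := by
    ext i
    simp [Finset.sum_apply, Pi.single_apply]
  rw [this]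
  exact Submodule.sum_mem _ fun j _ => Submodule.smul_mem_smul (hf j) Submodule.mem_top

instance isJacobsonRing_int : IsJacobsonRing ℤ := by
  rw [isJacobsonRing_iff_prime_eq]
  intro P hP
  by_cases h0 : P = ⊥
  · subst h0
    rw [eq_bot_iff]
    intro x hx
    rw [Ideal.mem_jacobson_bot] at hx
    by_contra hne
    have hx0 : x ≠ 0 := fun h => hne (by simp [h])
    have h1 := hx (3 * x)
    have h2 : 0 < x * x := mul_self_pos.2 hx0
    rcases Int.isUnit_iff.1 h1 with h3 | h3
    · nlinarith
    · nlinarith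
  · have : P.IsMaximal := hP.isMaximal h0
    exact Ideal.jacobson_eq_self_of_isMaximal

/-- a field which is finitely generated as a ring is finite -/
theorem finite_of_finiteType (K : Type*) [Field K] [Algebra.FiniteType ℤ K] : Finite K := by
  have hfin : Module.Finite ℤ K := finite_of_finite_type_of_isJacobsonRing ℤ K
  by_cases hch : ∃ p : ℕ, p.Prime ∧ CharP K p
  · obtain ⟨p, hp, hcp⟩ := hch
    have : Fact p.Prime := ⟨hp⟩
    let _ : Algebra (ZMod p) K := ZMod.algebra K p
    have : Module.Finite (ZMod p) K := by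
      obtain ⟨S, hS⟩ := hfin.fg_top
      refine ⟨⟨S, ?_⟩⟩
      rw [eq_top_iff]
      intro x _
      have hx : x ∈ Submodule.span ℤ (S : Set K) := hS ▸ Submodule.mem_top
      induction hx using Submodule.span_induction with
      | mem x h => exact Submodule.subset_span h
      | zero => exact zero_mem _
      | add x y _ _ h1 h2 => exact add_mem (h1 trivial) (h2 trivial)
      | smul a x _ h =>
        have : a • x = (a : ZMod p) • x := by
          rw [Algebra.smul_def (a : ZMod p) x, map_intCast, zsmul_eq_mul]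
        rw [this]
        exact Submodule.smul_mem _ _ (h trivial)
    exact Module.finite_of_finite (ZMod p)
  · exfalso
    have hcz : CharZero K := by
      obtain ⟨p, hp⟩ := CharP.exists K
      rcases CharP.char_is_prime_or_zero K p with h | h
      · exact absurd ⟨p, h, hp⟩ hch
      · subst h; exact CharP.charP_to_charZero K
    have hinj : Function.Injective (algebraMap ℤ K) := by
      have : (algebraMap ℤ K : ℤ → K) = Int.cast := by ext; simp
      rw [this]; exact Int.cast_injective
    have hint : Algebra.IsIntegral ℤ K := Algebra.IsIntegral.of_finite ℤ K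
    have := isField_of_isIntegral_of_isField hinj (Field.toIsField K)
    exact Int.not_isField this

theorem finite_quotient_pow (A : Type*) [CommRing A] [Algebra.FiniteType ℤ A] (𝔪 : Ideal A)
    (hm : 𝔪.IsMaximal) (k : ℕ) : Finite (A ⧸ 𝔪 ^ k) := by
  have : IsNoetherianRing A := Algebra.FiniteType.isNoetherianRing ℤ A
  let F : Field (A ⧸ 𝔪) := Ideal.Quotient.field 𝔪
  have h1 : @Algebra.FiniteType ℤ (A ⧸ 𝔪) _ _ (Ring.toIntAlgebra _) := by
    have h2 : Algebra.FiniteType ℤ (A ⧸ 𝔪) :=
      Algebra.FiniteType.of_surjective (Ideal.Quotient.mkₐ ℤ 𝔪) (Ideal.Quotient.mkₐ_surjective ℤ 𝔪)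
    convert h2
    · rfl
    · exact Subsingleton.elim _ _
  have : Finite (A ⧸ 𝔪) := @finite_of_finiteType (A ⧸ 𝔪) F h1
  exact Ideal.finite_quotient_pow (IsNoetherian.noetherian 𝔪) k

end Pool.Agent.Lib.MP_305fdd_al.Rep
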