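import Pool.Agent.Lib.MP_305fdd_al.Genus

/-!
# MP_305fdd_al: transfer of lifting properties between groups with the same finite quotients
-/

set_option autoImplicit false

namespace Pool.Agent.Lib.MP_305fdd_al.Rep

open Pool.Agent.MP_305fdd_al

theorem exists_common {G H : Type} [Group G] [Group H] [Group.FG G] [Group.FG H]
    (h : SameFiniteQuotients G H) (E : Type) [Group E] [Finite E] :
    ∃ (Q : Type) (_ : Group Q) (_ : Finite Q) (p : G →* Q) (q : H →* Q),
      Function.Surjective p ∧ Function.Surjective q ∧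
      (∀ f : G →* E, p.ker ≤ f.ker) ∧ (∀ f : H →* E, q.ker ≤ f.ker) := by
  have : Finite (G →* E) := finite_hom G E
  have : Finite (H →* E) := finite_hom H E
  obtain ⟨θ, hθ⟩ := (h (evQ G E).range).1 ⟨(evQ G E).rangeRestrict,
    MonoidHom.rangeRestrict_surjective _⟩
  refine ⟨(evQ G E).range, inferInstance, inferInstance, (evQ G E).rangeRestrict, θ,
    MonoidHom.rangeRestrict_surjective _, hθ, ?_, ?_⟩
  · intro f x hx
    rw [MonoidHom.ker_rangeRestrict, mem_ker_evQ] at hx
    exact hx f
  · have hle : (evQ H E).ker ≤ θ.ker := by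
      intro x hx
      rw [mem_ker_evQ] at hx
      rw [MonoidHom.mem_ker]
      apply Subtype.ext
      funext φ
      exact hx ((Pi.evalMonoidHom _ φ).comp ((Subgroup.subtype _).comp θ))
    have hfin : (evQ H E).ker.FiniteIndex := Subgroup.finiteIndex_ker _
    have h1 : θ.ker.index = (evQ G E).ker.index := by
      rw [Subgroup.index_ker, MonoidHom.range_eq_top.2 hθ, Subgroup.card_top,
        ← Subgroup.index_ker]
    have h2 : (evQ H E).ker.index ≤ θ.ker.index := by
      rw [h1]; exact evQ_index_le h.symm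
    have h3 : (evQ H E).ker.relIndex θ.ker * θ.ker.index = (evQ H E).ker.index :=
      Subgroup.relIndex_mul_index hle
    have h4 : (evQ H E).ker.index ≠ 0 := hfin.index_ne_zero
    have h5 : (evQ H E).ker.relIndex θ.ker = 1 := by
      have h6 : 0 < θ.ker.index := by
        rcases Nat.eq_zero_or_pos θ.ker.index with h0 | h0
        · rw [h0, mul_zero] at h3; exact absurd h3.symm h4
        · exact h0
      have h7 : (evQ H E).ker.relIndex θ.ker ≤ 1 := by
        by_contra hcon
        push Not at hcon
        have : θ.ker.index < (evQ H E).ker.relIndex θ.ker * θ.ker.index :=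
          lt_mul_of_one_lt_left h6 hcon
        omega
      have h8 : (evQ H E).ker.relIndex θ.ker ≠ 0 := by
        intro h0; rw [h0, zero_mul] at h3; exact h4 h3.symm
      omega
    have h6 : θ.ker ≤ (evQ H E).ker := Subgroup.relIndex_eq_one.1 h5
    intro f x hx
    exact mem_ker_evQ.1 (h6 hx) f

/-- Transfer of a lifting property. -/
theorem lift_transfer {G H : Type} [Group G] [Group H] [Group.FG G] [Group.FG H]
    (h : SameFiniteQuotients G H) {E' E : Type} [Group E'] [Group E] [Finite E'] [Finite E]
    (π : E' →* E) (P : Subgroup E → Prop)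
    (hH : ∀ α : H →* E, P α.range → ∃ β : H →* E', π.comp β = α) :
    ∀ α : G →* E, P α.range → ∃ β : G →* E', π.comp β = α := by
  intro α hα
  obtain ⟨Q, _, _, p, q, hp, hq, hkp, hkq⟩ := exists_common h (E' × E)
  have h1 : p.ker ≤ α.ker := by
    intro x hx
    have := hkp ((1 : G →* E').prod α) hx
    rw [MonoidHom.mem_ker] at this ⊢
    exact congrArg Prod.snd this
  set αb : Q →* E := p.liftOfSurjective hp ⟨α, h1⟩ with hαb
  have hαb' : αb.comp p = α := MonoidHom.liftOfRightInverse_comp _ _ _ _
  have hr : (αb.comp q).range = α.range := by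
    rw [← hαb', MonoidHom.range_comp, MonoidHom.range_comp, MonoidHom.range_eq_top.2 hp,
      MonoidHom.range_eq_top.2 hq]
  obtain ⟨β, hβ⟩ := hH (αb.comp q) (hr ▸ hα)
  have h2 : q.ker ≤ β.ker := by
    intro x hx
    have := hkq (β.prod (1 : H →* E)) hx
    rw [MonoidHom.mem_ker] at this ⊢
    exact congrArg Prod.fst this
  set βb : Q →* E' := q.liftOfSurjective hq ⟨β, h2⟩ with hβb
  have hβb' : βb.comp q = β := MonoidHom.liftOfRightInverse_comp _ _ _ _
  refine ⟨βb.comp p, ?_⟩
  have h3 : π.comp βb = αb := by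
    rw [← MonoidHom.cancel_right hq, MonoidHom.comp_assoc, hβb', hβ]
  rw [← MonoidHom.comp_assoc, h3, hαb']

/-- Free products of cyclic groups lift along surjections with abelian kernel on which the orders
act invertibly. -/
theorem FP_lift {ι : Type*} (m : ι → ℕ) {E' E : Type*} [Group E'] [Group E] (π : E' →* E)
    (hπ : Function.Surjective π)
    (hc : ∀ x ∈ π.ker, ∀ y ∈ π.ker, x * y = y * x)
    (hd : ∀ i, m i ≠ 0 → ∀ x ∈ π.ker, ∃ y ∈ π.ker, y ^ m i = x)
    (hu : ∀ i, m i ≠ 0 → ∀ x ∈ π.ker, x ^ m i = 1 → x = 1)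
    (α : Monoid.CoprodI (fun i => Multiplicative (ZMod (m i))) →* E) :
    ∃ β : Monoid.CoprodI (fun i => Multiplicative (ZMod (m i))) →* E', π.comp β = α := by
  have key : ∀ i, ∃ β : Multiplicative (ZMod (m i)) →* E',
      π.comp β = α.comp (Monoid.CoprodI.of (M := fun i => Multiplicative (ZMod (m i)))
        (i := i)) := by
    intro i
    set a : Multiplicative (ZMod (m i)) →* E :=
      α.comp (Monoid.CoprodI.of (M := fun i => Multiplicative (ZMod (m i))) (i := i)) with ha
    set c : Multiplicative (ZMod (m i)) := Multiplicative.ofAdd 1 with hcdef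
    have hcm : c ^ m i = 1 := by
      rw [hcdef, ← ofAdd_nsmul, nsmul_one, ZMod.natCast_self, ofAdd_zero]
    obtain ⟨e, he⟩ := hπ (a c)
    obtain ⟨e', he', hpow⟩ : ∃ e' : E', π e' = a c ∧ e' ^ m i = 1 := by
      by_cases h0 : m i = 0
      · exact ⟨e, he, by rw [h0, pow_zero]⟩
      · have hn0 : e ^ m i ∈ π.ker := by
          rw [MonoidHom.mem_ker, map_pow, he, ← map_pow, hcm, map_one]
        obtain ⟨y, hy, hyp⟩ := hd i h0 _ hn0
        -- y commutes with e
        have hy' : e * y * e⁻¹ ∈ π.ker := by
          have : π.ker.Normal := MonoidHom.normal_ker π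
          exact this.conj_mem y hy e
        have hyc : e * y * e⁻¹ = y := by
          have h1 : (e * y * e⁻¹) ^ m i = y ^ m i := by
            rw [conj_pow, hyp]
            group
          have h2 : (e * y * e⁻¹) * y⁻¹ = 1 := by
            apply hu i h0 _ (mul_mem hy' (inv_mem hy))
            have h3 : Commute (e * y * e⁻¹) y⁻¹ := hc _ hy' _ (inv_mem hy)
            rw [h3.mul_pow, h1, inv_pow, mul_inv_cancel]
          exact mul_inv_eq_one.1 h2
        have hcomm : Commute y⁻¹ e := by
          have : e * y = y * e := by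
            rw [mul_inv_eq_iff_eq_mul] at hyc; exact hyc
          have h3 : Commute y e := this.symm
          exact h3.inv_left
        refine ⟨y⁻¹ * e, ?_, ?_⟩
        · rw [map_mul, he, map_inv, MonoidHom.mem_ker.1 hy, inv_one, one_mul]
        · rw [hcomm.mul_pow, inv_pow, hyp, inv_mul_cancel]
    -- the homomorphism
    let f : Multiplicative (ZMod (m i)) →* E' :=
      AddMonoidHom.toMultiplicativeLeft
        (ZMod.lift (m i) ⟨zmultiplesHom (Additive E') (Additive.ofMul e'), by
          rw [zmultiplesHom_apply, natCast_zsmul, ← ofMul_pow, hpow, ofMul_one]⟩)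
    refine ⟨f, ?_⟩
    have hf : f c = e' := by
      change Additive.toMul (ZMod.lift (m i) _ (1 : ZMod (m i))) = e'
      have h1 : (1 : ZMod (m i)) = ((1 : ℤ) : ZMod (m i)) := by simp
      rw [h1, ZMod.lift_coe]
      simp
    -- both agree on the generator
    refine MonoidHom.ext fun x => ?_
    obtain ⟨z, hz⟩ := ZMod.intCast_surjective (Multiplicative.toAdd x)
    have hx : x = c ^ z := by
      rw [hcdef, ← ofAdd_zsmul, zsmul_one, hz]
      rfl
    rw [hx, map_zpow, map_zpow, MonoidHom.comp_apply, hf, he']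
  choose β hβ using key
  refine ⟨Monoid.CoprodI.lift β, Monoid.CoprodI.ext_hom _ _ fun i => ?_⟩
  rw [← hβ i, MonoidHom.comp_assoc]
  congr 1

end Pool.Agent.Lib.MP_305fdd_al.Rep
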