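import Pool.Agent.Lib.MP_305fdd_al.Rep.Crossed

/-!
# MP_305fdd_al: local-global principle for the correction equations
-/

set_option autoImplicit false

namespace Pool.Agent.Lib.MP_305fdd_al.Rep

open Matrix

variable {A : Type*} [CommRing A] {n : Type*} [Fintype n] [DecidableEq n] {s : Type*}

/-- the entries of `L` as linear forms -/
def form (φ : s → GL n A) (w : FreeGroup s) (a b : n) : (s → Matrix n n A) →ₗ[A] A where
  toFun X := L φ w X a b
  map_add' X Y := by rw [map_add, Matrix.add_apply]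
  map_smul' c X := by rw [map_smul, Matrix.smul_apply, RingHom.id_apply]

theorem form_apply (φ : s → GL n A) (w : FreeGroup s) (a b : n) (X : s → Matrix n n A) :
    form φ w a b X = L φ w X a b := rfl

theorem core [IsNoetherianRing A] [Finite s] (φ : s → GL n A) (R : Set (FreeGroup s))
    (P : Submodule A (s → Matrix n n A))
    (H : ∀ 𝔪 : Ideal A, 𝔪.IsMaximal → ∀ k : ℕ, ∃ X ∈ P, ∀ w ∈ R, ∀ a b,
      L φ w X a b + (vl (FreeGroup.lift φ w) a b - (1 : Matrix n n A) a b) ∈ 𝔪 ^ k) :
    ∃ X ∈ P, ∀ w ∈ R, L φ w X = 1 - vl (FreeGroup.lift φ w) := by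
  classical
  set err : FreeGroup s → n → n → A :=
    fun w a b => vl (FreeGroup.lift φ w) a b - (1 : Matrix n n A) a b with herr
  -- finitely many relators span
  let F : Set ((s → Matrix n n A) →ₗ[A] A) := {f | ∃ w ∈ R, ∃ a b, f = form φ w a b}
  have hfin : Module.Finite A (s → Matrix n n A) := by
    have : Module.Finite A (Matrix n n A) := inferInstance
    infer_instance
  have hfree : Module.Free A (s → Matrix n n A) := by
    have : Module.Free A (Matrix n n A) := inferInstance
    infer_instance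
  have hdual : Module.Finite A ((s → Matrix n n A) →ₗ[A] A) := inferInstance
  have hnoeth : IsNoetherian A ((s → Matrix n n A) →ₗ[A] A) := inferInstance
  obtain ⟨T, hTF, hTs⟩ := Submodule.fg_span_iff_fg_span_finset_subset F |>.1
    (IsNoetherian.noetherian (Submodule.span A F))
  have hch : ∀ f : T, ∃ w ∈ R, ∃ a b, (f : (s → Matrix n n A) →ₗ[A] A) = form φ w a b :=
    fun f => hTF f.2
  choose ww hwR aa bb hff using hch
  -- the evaluation map
  let E : (s → Matrix n n A) →ₗ[A] (T → A) :=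
    LinearMap.pi fun f => (f : (s → Matrix n n A) →ₗ[A] A)
  let y : T → A := fun f => - err (ww f) (aa f) (bb f)
  have hy : y ∈ Submodule.map E P := by
    apply mem_of_forall_pow
    intro 𝔪 hm k
    obtain ⟨X, hXP, hX⟩ := H 𝔪 hm k
    have h1 : y = E X + (y - E X) := by abel
    rw [h1]
    refine Submodule.add_mem_sup (Submodule.mem_map_of_mem hXP) ?_
    apply mem_pow_smul_top
    intro f
    have h2 := hX (ww f) (hwR f) (aa f) (bb f)
    have h3 : (y - E X) f = - (L φ (ww f) X (aa f) (bb f) + err (ww f) (aa f) (bb f)) := by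
      simp only [Pi.sub_apply, y, E, LinearMap.pi_apply]
      rw [hff f, form_apply]
      ring
    rw [h3]
    exact neg_mem h2
  obtain ⟨X, hXP, hX⟩ := hy
  refine ⟨X, hXP, fun w hw => ?_⟩
  ext a b
  rw [Matrix.sub_apply, ← form_apply]
  -- the form is a combination of the chosen ones
  have hmem : form φ w a b ∈ Submodule.span A (Set.range (fun f : T =>
      (f : (s → Matrix n n A) →ₗ[A] A))) := by
    have hr : Set.range (fun f : T => (f : (s → Matrix n n A) →ₗ[A] A)) =
        (T : Set ((s → Matrix n n A) →ₗ[A] A)) := by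
      ext f
      constructor
      · rintro ⟨g, rfl⟩; exact g.2
      · intro hf; exact ⟨⟨f, hf⟩, rfl⟩
    rw [hr, ← hTs]
    exact Submodule.subset_span ⟨w, hw, a, b, rfl⟩
  obtain ⟨c, hc⟩ := (Submodule.mem_span_range_iff_exists_fun A).1 hmem
  have hval : ∀ Z, form φ w a b Z = ∑ f : T, c f * form φ (ww f) (aa f) (bb f) Z := by
    intro Z
    rw [← hc, LinearMap.sum_apply]
    refine Finset.sum_congr rfl fun f _ => ?_
    rw [LinearMap.smul_apply, smul_eq_mul, hff f]
  have hXf : ∀ f : T, form φ (ww f) (aa f) (bb f) X = - err (ww f) (aa f) (bb f) := by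
    intro f
    have := congrFun hX f
    simp only [E, LinearMap.pi_apply, y] at this
    rw [← hff f]; exact this
  have herr2 : err w a b - ∑ f : T, c f * err (ww f) (aa f) (bb f) = 0 := by
    apply eq_zero_of_forall_pow
    intro 𝔪 hm k
    obtain ⟨Z, _, hZ⟩ := H 𝔪 hm k
    have h1 := hZ w hw a b
    have h2 : ∑ f : T, c f * (form φ (ww f) (aa f) (bb f) Z + err (ww f) (aa f) (bb f)) ∈ 𝔪 ^ k :=
      Ideal.sum_mem _ fun f _ => Ideal.mul_mem_left _ _ (hZ (ww f) (hwR f) (aa f) (bb f))
    have h3 : err w a b - ∑ f : T, c f * err (ww f) (aa f) (bb f) =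
        (L φ w Z a b + err w a b) -
        ∑ f : T, c f * (form φ (ww f) (aa f) (bb f) Z + err (ww f) (aa f) (bb f)) := by
      rw [← form_apply, hval Z]
      simp only [mul_add, Finset.sum_add_distrib]
      ring
    rw [h3]
    exact sub_mem h1 h2
  rw [hval X]
  simp only [hXf, mul_neg, Finset.sum_neg_distrib]
  rw [← sub_eq_zero.1 herr2]
  simp only [herr]
  ring

/-- corrected generators -/
theorem one_add_unit {I : Ideal A} (hI : I ^ 2 = ⊥) {X : Matrix n n A} (hX : ∀ a b, X a b ∈ I) :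
    (1 + X) * (1 - X) = 1 ∧ (1 - X) * (1 + X) = 1 := by
  have hXX : X * X = 0 := by
    ext a b
    rw [Matrix.mul_apply, Matrix.zero_apply]
    refine Finset.sum_eq_zero fun c _ => ?_
    have : X a c * X c b ∈ I ^ 2 := by
      rw [pow_two]; exact Ideal.mul_mem_mul (hX a c) (hX c b)
    rw [hI] at this
    simpa using this
  constructor
  · rw [mul_sub, mul_one, add_mul, one_mul, hXX]; abel
  · rw [mul_add, mul_one, sub_mul, one_mul, hXX]; abel

/-- the invertible matrix `1 + X` -/
def oneAdd {I : Ideal A} (hI : I ^ 2 = ⊥) (X : Matrix n n A) (hX : ∀ a b, X a b ∈ I) : GL n A :=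
  ⟨1 + X, 1 - X, (one_add_unit hI hX).1, (one_add_unit hI hX).2⟩

omit [DecidableEq n] in
theorem mul_mem_I {I : Ideal A} {X : Matrix n n A} (hX : ∀ a b, X a b ∈ I) (Y : Matrix n n A) :
    (∀ a b, (X * Y) a b ∈ I) ∧ (∀ a b, (Y * X) a b ∈ I) := by
  constructor
  · intro a b
    rw [Matrix.mul_apply]
    exact Ideal.sum_mem _ fun c _ => Ideal.mul_mem_right _ _ (hX a c)
  · intro a b
    rw [Matrix.mul_apply]
    exact Ideal.sum_mem _ fun c _ => Ideal.mul_mem_left _ _ (hX c b)

omit [DecidableEq n] in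
theorem mul_zero_I {I : Ideal A} (hI : I ^ 2 = ⊥) {X Y : Matrix n n A} (hX : ∀ a b, X a b ∈ I)
    (hY : ∀ a b, Y a b ∈ I) : X * Y = 0 := by
  ext a b
  rw [Matrix.mul_apply, Matrix.zero_apply]
  refine Finset.sum_eq_zero fun c _ => ?_
  have : X a c * Y c b ∈ I ^ 2 := by
    rw [pow_two]; exact Ideal.mul_mem_mul (hX a c) (hY c b)
  rw [hI] at this
  simpa using this

/-- changing the generators by `1 + X` changes the value on `w` by `1 + L w X` -/
theorem lift_oneAdd {I : Ideal A} (hI : I ^ 2 = ⊥) (φ : s → GL n A) (X : s → Matrix n n A)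
    (hX : ∀ i a b, X i a b ∈ I) (w : FreeGroup s) :
    (∀ a b, L φ w X a b ∈ I) ∧
    vl (FreeGroup.lift (fun i => oneAdd hI (X i) (hX i) * φ i) w) =
      (1 + L φ w X) * vl (FreeGroup.lift φ w) := by
  induction w using FreeGroup.induction_on with
  | C1 =>
    rw [L_one]
    simp [vl]
  | of i =>
    rw [L_of]
    refine ⟨hX i, ?_⟩
    simp only [FreeGroup.lift_apply_of, vl, Units.val_mul]
    rfl
  | inv_of i _ =>
    rw [L_inv, L_of]
    simp only [FreeGroup.lift_apply_of, map_inv]
    refine ⟨?_, ?_⟩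
    · intro a b
      rw [Matrix.neg_apply]
      exact neg_mem ((mul_mem_I ((mul_mem_I (hX i) _).2) _).1 a b)
    · rw [_root_.mul_inv_rev]
      have h1 : vl (oneAdd hI (X i) (hX i))⁻¹ = 1 - X i := rfl
      have h2 : vl (φ i) * vl (φ i)⁻¹ = 1 := by
        rw [← Units.val_mul, mul_inv_cancel, Units.val_one]
      change vl (φ i)⁻¹ * vl (oneAdd hI (X i) (hX i))⁻¹ = _
      rw [h1, Matrix.mul_sub, Matrix.mul_one, Matrix.add_mul, Matrix.one_mul, Matrix.neg_mul,
        Matrix.mul_assoc (vl (φ i)⁻¹ * X i), h2, Matrix.mul_one, sub_eq_add_neg]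
  | mul x y hx hy =>
    rw [L_mul]
    have h3 : ∀ a b, (vl (FreeGroup.lift φ x) * L φ y X * vl (FreeGroup.lift φ x)⁻¹) a b ∈ I :=
      (mul_mem_I ((mul_mem_I hy.1 _).2) _).1
    refine ⟨?_, ?_⟩
    · intro a b
      rw [Matrix.add_apply]
      exact add_mem (hx.1 a b) (h3 a b)
    · simp only [map_mul]
      change vl (FreeGroup.lift (fun i => oneAdd hI (X i) (hX i) * φ i) x) *
        vl (FreeGroup.lift (fun i => oneAdd hI (X i) (hX i) * φ i) y) = _ *
        (vl (FreeGroup.lift φ x) * vl (FreeGroup.lift φ y))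
      rw [hx.2, hy.2]
      have h2 : vl (FreeGroup.lift φ x)⁻¹ * vl (FreeGroup.lift φ x) = 1 := by
        rw [← Units.val_mul, inv_mul_cancel, Units.val_one]
      have h4 : L φ x X * (vl (FreeGroup.lift φ x) * L φ y X * vl (FreeGroup.lift φ x)⁻¹) = 0 :=
        mul_zero_I hI hx.1 h3
      have h5 : (1 + L φ x X) * (1 + vl (FreeGroup.lift φ x) * L φ y X *
          vl (FreeGroup.lift φ x)⁻¹) = 1 + (L φ x X + vl (FreeGroup.lift φ x) * L φ y X *
          vl (FreeGroup.lift φ x)⁻¹) := by
        rw [mul_add, mul_one, add_mul, one_mul, h4, add_zero, add_assoc]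
      have h6 : (1 + vl (FreeGroup.lift φ x) * L φ y X *
          vl (FreeGroup.lift φ x)⁻¹) * vl (FreeGroup.lift φ x) =
          vl (FreeGroup.lift φ x) * (1 + L φ y X) := by
        rw [add_mul, one_mul, mul_assoc _ (vl (FreeGroup.lift φ x)⁻¹), h2, mul_one, mul_add,
          mul_one]
      rw [← h5, mul_assoc (1 + L φ x X) (1 + _), ← mul_assoc (1 + _) (vl (FreeGroup.lift φ x)), h6]
      simp only [mul_assoc]

end Pool.Agent.Lib.MP_305fdd_al.Rep
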