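import Pool.Agent.Lib.MP_305fdd_al.Rep.Krull

/-!
# MP_305fdd_al: the linear equations for correcting a lift of a representation
-/

set_option autoImplicit false

namespace Pool.Agent.Lib.MP_305fdd_al.Rep

open Matrix

variable {A : Type*} [CommRing A] {n : Type*} [Fintype n] [DecidableEq n] {s : Type*}

/-- matrix of a unit and its inverse -/
abbrev vl (a : GL n A) : Matrix n n A := (a : Matrix n n A)

/-- the affine automorphism attached to a generator -/
def gen (φ : s → GL n A) (i : s) :
    (Matrix n n A × (s → Matrix n n A)) ≃ₗ[A] (Matrix n n A × (s → Matrix n n A)) where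
  toFun p := (vl (φ i) * p.1 * vl (φ i)⁻¹ + p.2 i, p.2)
  map_add' p q := by
    ext1
    · simp only [Prod.fst_add, Prod.snd_add, Pi.add_apply, mul_add, add_mul]
      abel
    · rfl
  map_smul' c p := by
    ext1
    · simp only [Prod.smul_fst, Prod.smul_snd, Pi.smul_apply, RingHom.id_apply, smul_add,
        Matrix.mul_smul, Matrix.smul_mul]
    · rfl
  invFun p := (vl (φ i)⁻¹ * (p.1 - p.2 i) * vl (φ i), p.2)
  left_inv p := by
    ext1
    · simp only [add_sub_cancel_right]
      have h1 : vl (φ i)⁻¹ * vl (φ i) = 1 := by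
        rw [← Units.val_mul, inv_mul_cancel, Units.val_one]
      calc vl (φ i)⁻¹ * (vl (φ i) * p.1 * vl (φ i)⁻¹) * vl (φ i)
          = (vl (φ i)⁻¹ * vl (φ i)) * p.1 * (vl (φ i)⁻¹ * vl (φ i)) := by
            simp only [Matrix.mul_assoc]
        _ = p.1 := by rw [h1]; simp
    · rfl
  right_inv p := by
    ext1
    · have h1 : vl (φ i) * vl (φ i)⁻¹ = 1 := by
        rw [← Units.val_mul, mul_inv_cancel, Units.val_one]
      have : vl (φ i) * (vl (φ i)⁻¹ * (p.1 - p.2 i) * vl (φ i)) * vl (φ i)⁻¹
          = (vl (φ i) * vl (φ i)⁻¹) * (p.1 - p.2 i) * (vl (φ i) * vl (φ i)⁻¹) := by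
            simp only [Matrix.mul_assoc]
      simp only
      rw [this, h1]
      simp
    · rfl

/-- the action of the free group -/
def act (φ : s → GL n A) : FreeGroup s →*
    ((Matrix n n A × (s → Matrix n n A)) ≃ₗ[A] (Matrix n n A × (s → Matrix n n A))) :=
  FreeGroup.lift (gen φ)

/-- the universal crossed homomorphism -/
def L (φ : s → GL n A) (w : FreeGroup s) : (s → Matrix n n A) →ₗ[A] Matrix n n A :=
  (LinearMap.fst A _ _).comp ((act φ w).toLinearMap.comp (LinearMap.inr A _ _))

theorem L_apply (φ : s → GL n A) (w : FreeGroup s) (X : s → Matrix n n A) :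
    L φ w X = (act φ w (0, X)).1 := rfl

theorem act_apply (φ : s → GL n A) (w : FreeGroup s) (Y : Matrix n n A)
    (X : s → Matrix n n A) :
    act φ w (Y, X) = (vl (FreeGroup.lift φ w) * Y * vl (FreeGroup.lift φ w)⁻¹ + L φ w X, X) := by
  -- the set of `w` for which this holds is a subgroup
  have key : ∀ w : FreeGroup s, (∀ Y X, act φ w (Y, X) =
      (vl (FreeGroup.lift φ w) * Y * vl (FreeGroup.lift φ w)⁻¹ + L φ w X, X)) := by
    intro w
    induction w using FreeGroup.induction_on with
    | C1 =>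
      intro Y X
      simp only [L_apply, map_one, LinearEquiv.coe_one, id_eq, add_zero, inv_one, Units.val_one,
        Matrix.mul_one, Matrix.one_mul, vl]
    | of i =>
      intro Y X
      simp only [L_apply, act, FreeGroup.lift_apply_of, gen, LinearEquiv.coe_mk, LinearMap.coe_mk,
        AddHom.coe_mk, Matrix.mul_zero, Matrix.zero_mul, zero_add]
    | inv_of i _ =>
      intro Y X
      simp only [L_apply, act, map_inv, FreeGroup.lift_apply_of]
      have hinv : ∀ p, (gen φ i)⁻¹ p = (vl (φ i)⁻¹ * (p.1 - p.2 i) * vl (φ i), p.2) := fun p => rfl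
      rw [hinv, hinv]
      simp only [inv_inv, zero_sub, Matrix.mul_sub, Matrix.sub_mul, Matrix.mul_neg,
        Matrix.neg_mul]
      rw [sub_eq_add_neg]
    | mul x y hx hy =>
      intro Y X
      simp only [L_apply] at hx hy ⊢
      rw [map_mul, LinearEquiv.mul_apply, LinearEquiv.mul_apply, hy Y X, hx]
      conv_rhs => rw [hy 0 X, hx]
      simp only [map_mul, _root_.mul_inv_rev, Units.val_mul, vl, Matrix.mul_add, Matrix.add_mul,
        Matrix.mul_assoc, Matrix.mul_zero, Matrix.zero_mul, zero_add, add_assoc]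
  exact key w Y X

theorem L_one (φ : s → GL n A) : L φ 1 = 0 := by
  ext1 X
  rw [L_apply, map_one]
  rfl

theorem L_of (φ : s → GL n A) (i : s) (X : s → Matrix n n A) :
    L φ (FreeGroup.of i) X = X i := by
  rw [L_apply]
  simp only [act, FreeGroup.lift_apply_of, gen, LinearEquiv.coe_mk, LinearMap.coe_mk,
        AddHom.coe_mk, Matrix.mul_zero, Matrix.zero_mul, zero_add]

theorem L_mul (φ : s → GL n A) (x y : FreeGroup s) (X : s → Matrix n n A) :
    L φ (x * y) X = L φ x X +
      vl (FreeGroup.lift φ x) * L φ y X * vl (FreeGroup.lift φ x)⁻¹ := by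
  rw [L_apply, map_mul, LinearEquiv.mul_apply, act_apply φ y, act_apply φ x]
  simp only [Matrix.mul_zero, Matrix.zero_mul, zero_add]
  rw [add_comm]

theorem L_inv (φ : s → GL n A) (x : FreeGroup s) (X : s → Matrix n n A) :
    L φ x⁻¹ X = - (vl (FreeGroup.lift φ x)⁻¹ * L φ x X * vl (FreeGroup.lift φ x)) := by
  have h := L_mul φ x⁻¹ x X
  rw [inv_mul_cancel, L_one, map_inv, inv_inv] at h
  exact eq_neg_of_add_eq_zero_left h.symm

end Pool.Agent.Lib.MP_305fdd_al.Rep
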