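import Pool.Agent.Lib.MP_305fdd_al.Rep.Main
import Pool.Agent.Lib.MP_305fdd_al.Basic

/-!
# MP_305fdd_al: representations of groups in the genus of a free product of cyclic groups lift
-/

set_option autoImplicit false

namespace Pool.Agent.Lib.MP_305fdd_al.Rep

open Matrix Pool.Agent.MP_305fdd_al

universe u v

theorem liftsFinite_freeProd {n : Type v} [Fintype n] [DecidableEq n] {ι : Type} (m : ι → ℕ) :
    LiftsFinite.{u, v} n False {k | k ≠ 0 ∧ ∃ i, m i = k}
      (Monoid.CoprodI fun i => Multiplicative (ZMod (m i))) := by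
  intro A B _ _ _ _ f hf hk hM α _
  exact FP_lift m (GeneralLinearGroup.map (n := n) f) (GL_map_surjective hf ⟨2, hk⟩)
    (ker_map_comm hk) (fun i hi => ker_map_div hk (hM _ ⟨hi, i, rfl⟩))
    (fun i hi => ker_map_inj hk (hM _ ⟨hi, i, rfl⟩)) α

theorem fg_freeProd {ι : Type} [Finite ι] (m : ι → ℕ) :
    Group.FG (Monoid.CoprodI fun i => Multiplicative (ZMod (m i))) := by
  apply fg_coprodI
  intro i
  have hs : Function.Surjective (AddMonoidHom.toMultiplicative (Int.castAddHom (ZMod (m i)))) :=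
    fun x => by
      obtain ⟨z, hz⟩ := ZMod.intCast_surjective (Multiplicative.toAdd x)
      exact ⟨Multiplicative.ofAdd z, congrArg Multiplicative.ofAdd hz⟩
  exact Group.fg_of_surjective hs

theorem lift_genus_freeProd {ι : Type} [Finite ι] (m : ι → ℕ) {Λ : Type} [Group Λ]
    (hΛ : Group.FG Λ)
    (h : SameFiniteQuotients Λ (Monoid.CoprodI fun i => Multiplicative (ZMod (m i))))
    {n : Type v} [Fintype n] [DecidableEq n] {A B : Type u} [CommRing A] [CommRing B]
    (f : A →+* B) (hf : Function.Surjective f) (hn : IsNilpotent (RingHom.ker f))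
    (hM : ∀ i, m i ≠ 0 → IsUnit (m i : A)) (θ : Λ →* GL n B) :
    ∃ ρ : Λ →* GL n A, (GeneralLinearGroup.map (n := n) f).comp ρ = θ := by
  have := fg_freeProd m
  refine lift_nilpotent (b := False) (M := {k | k ≠ 0 ∧ ∃ i, m i = k}) ?_
    ((liftsFinite_freeProd.{u, v} m).transfer h) f hf hn ?_ θ (fun h => h.elim)
  · exact (Set.finite_range m).subset fun k hk => hk.2
  · rintro k ⟨hk, i, rfl⟩
    exact hM i hk

end Pool.Agent.Lib.MP_305fdd_al.Rep
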