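import Pool.Agent.Lib.MP_305fdd_al.Rep.LocalGlobal
import Pool.Agent.Lib.MP_305fdd_al.Rep.Transfer

/-!
# MP_305fdd_al: lifting representations of groups with the same finite quotients
-/

set_option autoImplicit false

namespace Pool.Agent.Lib.MP_305fdd_al.Rep

open Matrix Pool.Agent.MP_305fdd_al

universe u v

variable {n : Type v} [Fintype n] [DecidableEq n]

/-- `lift_transfer` for groups in any universe -/
theorem lift_transfer_u {G H : Type} [Group G] [Group H] [Group.FG G] [Group.FG H]
    (h : SameFiniteQuotients G H) {E' E : Type u} [Group E'] [Group E] [Finite E'] [Finite E]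
    (π : E' →* E) (P : Subgroup E → Prop)
    (hH : ∀ α : H →* E, P α.range → ∃ β : H →* E', π.comp β = α) :
    ∀ α : G →* E, P α.range → ∃ β : G →* E', π.comp β = α := by
  let e' : Shrink.{0} E' ≃* E' := Shrink.mulEquiv
  let e : Shrink.{0} E ≃* E := Shrink.mulEquiv
  let π₀ : Shrink.{0} E' →* Shrink.{0} E := e.symm.toMonoidHom.comp (π.comp e'.toMonoidHom)
  have key := lift_transfer h π₀ (fun S => P (S.map e.toMonoidHom)) (by
    intro α hα
    obtain ⟨β, hβ⟩ := hH (e.toMonoidHom.comp α) (by rw [MonoidHom.range_comp]; exact hα)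
    refine ⟨e'.symm.toMonoidHom.comp β, ?_⟩
    ext1 x
    have h1 : π (β x) = e (α x) := DFunLike.congr_fun hβ x
    change e.symm (π (e' (e'.symm (β x)))) = α x
    rw [e'.apply_symm_apply, h1, e.symm_apply_apply])
  intro α hα
  obtain ⟨β, hβ⟩ := key (e.symm.toMonoidHom.comp α) (by
    rw [← MonoidHom.range_comp, ← MonoidHom.comp_assoc]
    have : (e.toMonoidHom.comp e.symm.toMonoidHom) = MonoidHom.id E := by
      ext1 x; exact e.apply_symm_apply x
    rw [this, MonoidHom.id_comp]
    exact hα)
  refine ⟨e'.toMonoidHom.comp β, ?_⟩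
  ext1 x
  have h1 : e.symm (π (e' (β x))) = e.symm (α x) := DFunLike.congr_fun hβ x
  exact e.symm.injective h1

/-- the span condition (switched on by `b`) -/
def Sp (b : Prop) {B : Type*} [CommRing B] (S : Subgroup (GL n B)) : Prop :=
  b → Submodule.span B ((fun g : GL n B => vl g) '' (S : Set (GL n B))) = ⊤

theorem Sp.map {b : Prop} {A : Type*} {B : Type*} [CommRing A] [CommRing B] {f : A →+* B}
    (hf : Function.Surjective f) {S : Subgroup (GL n A)} (hS : Sp b S) :
    Sp b (S.map (GeneralLinearGroup.map (n := n) f)) := by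
  intro hb
  have h1 := hS hb
  rw [eq_top_iff]
  intro M _
  choose c hc using hf
  let M' : Matrix n n A := Matrix.of fun i j => c (M i j)
  have hM' : M'.map f = M := by
    ext i j
    simp [M', hc]
  rw [← hM']
  have h2 : M' ∈ Submodule.span A ((fun g : GL n A => vl g) '' (S : Set (GL n A))) := by
    rw [h1]; exact Submodule.mem_top
  clear_value M'
  clear hM'
  induction h2 using Submodule.span_induction with
  | mem x hx =>
    obtain ⟨g, hg, rfl⟩ := hx
    refine Submodule.subset_span ⟨GeneralLinearGroup.map (n := n) f g, ⟨g, hg, rfl⟩, ?_⟩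
    ext i j
    rfl
  | zero =>
    rw [Matrix.map_zero _ (map_zero f)]
    exact zero_mem _
  | add x y _ _ hx hy =>
    rw [Matrix.map_add _ (map_add f)]
    exact add_mem hx hy
  | smul a x _ hx =>
    have : (a • x).map f = f a • x.map f := by
      ext i j
      simp
    rw [this]
    exact Submodule.smul_mem _ _ hx

theorem Sp.of_lift {b : Prop} {A : Type*} {B : Type*} [CommRing A] [CommRing B] {f : A →+* B}
    (hf : Function.Surjective f) (hn : IsNilpotent (RingHom.ker f)) {S : Subgroup (GL n A)}
    (hS : Sp b (S.map (GeneralLinearGroup.map (n := n) f))) : Sp b S := by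
  intro hb
  have h1 := hS hb
  rw [eq_top_iff]
  apply Submodule.le_of_le_smul_of_le_jacobson_bot (I := RingHom.ker f) Module.Finite.fg_top
  · obtain ⟨k, hk⟩ := hn
    intro x hx
    have h2 : IsNilpotent x := by
      refine ⟨k, ?_⟩
      have := Ideal.pow_mem_pow hx k
      rw [hk] at this
      simpa using this
    rw [Ideal.mem_jacobson_bot]
    intro y
    exact (h2.map (RingHom.id A)).isUnit_add_one |> fun _ => by
      have h3 : IsNilpotent (x * y) := (Commute.all x y).isNilpotent_mul_right h2
      exact h3.isUnit_add_one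
  · intro M _
    -- the image of `M` is in the span of the image
    have h2 : ∀ N : Matrix n n B, N ∈ Submodule.span B ((fun g : GL n B => vl g) ''
        (S.map (GeneralLinearGroup.map (n := n) f) : Set (GL n B))) →
        ∃ N' ∈ Submodule.span A ((fun g : GL n A => vl g) '' (S : Set (GL n A))),
          N'.map f = N := by
      intro N hN
      induction hN using Submodule.span_induction with
      | mem x hx =>
        obtain ⟨g, ⟨g', hg', rfl⟩, rfl⟩ := hx
        refine ⟨vl g', Submodule.subset_span ⟨g', hg', rfl⟩, ?_⟩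
        ext i j
        rfl
      | zero => exact ⟨0, zero_mem _, Matrix.map_zero _ (map_zero f)⟩
      | add x y _ _ hx hy =>
        obtain ⟨x', hx', rfl⟩ := hx
        obtain ⟨y', hy', rfl⟩ := hy
        exact ⟨x' + y', add_mem hx' hy', Matrix.map_add _ (map_add f) _ _⟩
      | smul a x _ hx =>
        obtain ⟨x', hx', rfl⟩ := hx
        obtain ⟨a', rfl⟩ := hf a
        refine ⟨a' • x', Submodule.smul_mem _ _ hx', ?_⟩
        ext i j
        simp
    obtain ⟨N', hN', hN⟩ := h2 (M.map f) (by rw [h1]; exact Submodule.mem_top)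
    have h3 : M = N' + (M - N') := by abel
    rw [h3]
    refine Submodule.add_mem_sup hN' ?_
    have h4 : ∀ i j, (M - N') i j ∈ RingHom.ker f := by
      intro i j
      have h5 : f (N' i j) = f (M i j) := congrFun (congrFun hN i) j
      rw [RingHom.mem_ker, Matrix.sub_apply, map_sub, h5, sub_self]
    rw [Matrix.matrix_eq_sum_single (M - N')]
    refine Submodule.sum_mem _ fun i _ => Submodule.sum_mem _ fun j _ => ?_
    have h5 : Matrix.single i j ((M - N') i j) = (M - N') i j • Matrix.single i j (1 : A) := by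
      rw [Matrix.smul_single, smul_eq_mul, mul_one]
    rw [h5]
    exact Submodule.smul_mem_smul (h4 i j) Submodule.mem_top

/-- finitely many coefficients witness the span condition -/
theorem exists_coeffs {b : Prop} {A : Type u} {B : Type u} [CommRing A] [CommRing B] {f : A →+* B}
    (hf : Function.Surjective f) {Λ : Type*} [Group Λ] (θ : Λ →* GL n B) (hθ : Sp b θ.range) :
    ∃ F : Set A, F.Finite ∧ ∀ (B₀ : Type u) [CommRing B₀] (j : B₀ →+* B),
      Function.Injective j → (∀ x ∈ F, f x ∈ j.range) → ∀ θ₀ : Λ →* GL n B₀,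
      (GeneralLinearGroup.map (n := n) j).comp θ₀ = θ → Sp b θ₀.range := by
  by_cases hb : b
  · have h1 := hθ hb
    have h2 : ∀ p : n × n, ∃ (N : ℕ) (c : Fin N → A) (l : Fin N → Λ),
        ∑ i, f (c i) • vl (θ (l i)) = Matrix.single p.1 p.2 (1 : B) := by
      intro p
      have h3 : Matrix.single p.1 p.2 (1 : B) ∈ Submodule.span B
          ((fun g : GL n B => vl g) '' (θ.range : Set (GL n B))) := by
        rw [h1]; exact Submodule.mem_top
      obtain ⟨N, c, g, hg⟩ := Submodule.mem_span_set'.1 h3
      have h4 : ∀ i, ∃ l : Λ, vl (θ l) = (g i : Matrix n n B) := by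
        intro i
        obtain ⟨x, ⟨l, hl⟩, hx⟩ := (g i).2
        exact ⟨l, by rw [hl]; exact hx⟩
      choose l hl using h4
      choose c' hc' using fun i => hf (c i)
      refine ⟨N, c', l, ?_⟩
      rw [← hg]
      exact Finset.sum_congr rfl fun i _ => by rw [hc', hl]
    choose N c l hcl using h2
    refine ⟨⋃ p : n × n, Set.range (c p), Set.finite_iUnion fun p => Set.finite_range _, ?_⟩
    intro B₀ _ j hj hF θ₀ hθ₀ _
    rw [eq_top_iff]
    intro M _
    rw [Matrix.matrix_eq_sum_single M]
    refine Submodule.sum_mem _ fun a _ => Submodule.sum_mem _ fun a' _ => ?_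
    have h5 : Matrix.single a a' (M a a') = M a a' • Matrix.single a a' (1 : B₀) := by
      rw [Matrix.smul_single, smul_eq_mul, mul_one]
    rw [h5]
    refine Submodule.smul_mem _ _ ?_
    have h6 : ∀ i, ∃ d : B₀, j d = f (c (a, a') i) := fun i =>
      hF _ (Set.mem_iUnion.2 ⟨(a, a'), i, rfl⟩)
    choose d hd using h6
    have h7 : Matrix.single a a' (1 : B₀) = ∑ i, d i • vl (θ₀ (l (a, a') i)) := by
      have h8 : (Matrix.single a a' (1 : B₀)).map j =
          (∑ i, d i • vl (θ₀ (l (a, a') i))).map j := by
        have h9 : (∑ i, d i • vl (θ₀ (l (a, a') i))).map j =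
            ∑ i, f (c (a, a') i) • vl (θ (l (a, a') i)) := by
          ext x y
          rw [Matrix.map_apply, Matrix.sum_apply, Matrix.sum_apply, map_sum]
          refine Finset.sum_congr rfl fun i _ => ?_
          rw [Matrix.smul_apply, Matrix.smul_apply, smul_eq_mul, smul_eq_mul, map_mul, hd,
            ← hθ₀]
          rfl
        rw [h9, hcl (a, a')]
        ext x y
        rw [Matrix.map_apply, Matrix.single_apply, Matrix.single_apply]
        split_ifs <;> simp
      exact Matrix.map_injective hj h8
    rw [h7]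
    exact Submodule.sum_mem _ fun i _ => Submodule.smul_mem _ _
      (Submodule.subset_span ⟨θ₀ (l (a, a') i), ⟨_, rfl⟩, rfl⟩)
  · exact ⟨∅, Set.finite_empty, fun B₀ _ j _ _ θ₀ _ h => absurd h hb⟩

end Pool.Agent.Lib.MP_305fdd_al.Rep
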