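import Pool.Agent.Lib.MP_305fdd_al.Rep.Square

/-!
# MP_305fdd_al: a local-global principle for lifting representations along a square-zero ideal
-/

set_option autoImplicit false

namespace Pool.Agent.Lib.MP_305fdd_al.Rep

open Matrix

variable {n : Type*} [Fintype n] [DecidableEq n]

/-- A representation over `A ⧸ I`, `I ^ 2 = 0`, `A` noetherian, lifts to `A` as soon as it lifts
modulo all powers of all maximal ideals. -/
theorem lift_local_global {A : Type*} [CommRing A] [IsNoetherianRing A] {I : Ideal A}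
    (hI : I ^ 2 = ⊥) {Λ : Type*} [Group Λ] [Group.FG Λ] (θ : Λ →* GL n (A ⧸ I))
    (H : ∀ 𝔪 : Ideal A, 𝔪.IsMaximal → ∀ k : ℕ, ∃ β : Λ →* GL n (A ⧸ 𝔪 ^ k),
      (GeneralLinearGroup.map (n := n)
        (Ideal.Quotient.factor (le_sup_right : 𝔪 ^ k ≤ I ⊔ 𝔪 ^ k))).comp β =
      (GeneralLinearGroup.map (n := n)
        (Ideal.Quotient.factor (le_sup_left : I ≤ I ⊔ 𝔪 ^ k))).comp θ) :
    ∃ ρ : Λ →* GL n A, (GeneralLinearGroup.map (n := n) (Ideal.Quotient.mk I)).comp ρ = θ := by
  classical
  obtain ⟨S, hS⟩ := Group.fg_def.1 (inferInstance : Group.FG Λ)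
  -- generators
  let g : S → Λ := fun i => i
  have hgs : Function.Surjective (FreeGroup.lift g) := by
    rw [← MonoidHom.range_eq_top, FreeGroup.range_lift_eq_closure]
    simp only [g, Subtype.range_coe_subtype]
    exact hS
  have hkerI : RingHom.ker (Ideal.Quotient.mk I) ^ 2 = ⊥ := by rw [Ideal.mk_ker]; exact hI
  have hsurjI := GL_map_surjective (n := n) (Ideal.Quotient.mk_surjective (I := I)) ⟨2, hkerI⟩
  choose φ hφ using fun i : S => hsurjI (θ (g i))
  have hφw : ∀ w, GeneralLinearGroup.map (n := n) (Ideal.Quotient.mk I) (FreeGroup.lift φ w) =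
      θ (FreeGroup.lift g w) := by
    intro w
    have : (GeneralLinearGroup.map (n := n) (Ideal.Quotient.mk I)).comp (FreeGroup.lift φ) =
        θ.comp (FreeGroup.lift g) := by
      ext1 i
      rw [MonoidHom.comp_apply, MonoidHom.comp_apply, FreeGroup.lift_apply_of,
        FreeGroup.lift_apply_of, hφ]
    exact DFunLike.congr_fun this w
  let R : Set (FreeGroup S) := {w | FreeGroup.lift g w = 1}
  have hR : ∀ w ∈ R, ∀ a b, (vl (FreeGroup.lift φ w) - 1) a b ∈ I := by
    intro w hw
    have h1 : FreeGroup.lift φ w ∈ (GeneralLinearGroup.map (n := n) (Ideal.Quotient.mk I)).ker := by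
      rw [MonoidHom.mem_ker, hφw, (show FreeGroup.lift g w = 1 from hw), map_one]
    rw [mem_ker_map, Ideal.mk_ker] at h1
    exact h1
  let P : Submodule A (S → Matrix n n A) :=
    { carrier := {X | ∀ i a b, X i a b ∈ I}
      add_mem' := fun {X Y} hX hY i a b => by
        rw [Pi.add_apply, Matrix.add_apply]
        exact add_mem (hX i a b) (hY i a b)
      zero_mem' := fun i a b => by simp
      smul_mem' := fun c X hX i a b => by
        rw [Pi.smul_apply, Matrix.smul_apply, smul_eq_mul]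
        exact Ideal.mul_mem_left _ _ (hX i a b) }
  have hmain : ∃ X ∈ P, ∀ w ∈ R, L φ w X = 1 - vl (FreeGroup.lift φ w) := by
    apply core
    intro 𝔪 hm k
    obtain ⟨β, hβ⟩ := H 𝔪 hm k
    -- correction terms
    have h1 : ∀ i : S, β (g i) * (GeneralLinearGroup.map (n := n) (Ideal.Quotient.mk (𝔪 ^ k))
        (φ i))⁻¹ ∈ (GeneralLinearGroup.map (n := n)
        (Ideal.Quotient.factor (le_sup_right : 𝔪 ^ k ≤ I ⊔ 𝔪 ^ k))).ker := by
      intro i
      rw [MonoidHom.mem_ker, map_mul, map_inv]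
      have h2 : GeneralLinearGroup.map (n := n)
          (Ideal.Quotient.factor (le_sup_right : 𝔪 ^ k ≤ I ⊔ 𝔪 ^ k)) (β (g i)) =
          GeneralLinearGroup.map (n := n)
          (Ideal.Quotient.factor (le_sup_left : I ≤ I ⊔ 𝔪 ^ k)) (θ (g i)) :=
        DFunLike.congr_fun hβ (g i)
      have h3 : GeneralLinearGroup.map (n := n)
          (Ideal.Quotient.factor (le_sup_right : 𝔪 ^ k ≤ I ⊔ 𝔪 ^ k))
          (GeneralLinearGroup.map (n := n) (Ideal.Quotient.mk (𝔪 ^ k)) (φ i)) =
          GeneralLinearGroup.map (n := n)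
          (Ideal.Quotient.factor (le_sup_left : I ≤ I ⊔ 𝔪 ^ k)) (θ (g i)) := by
        rw [← hφ i]
        ext a b
        rw [GeneralLinearGroup.map_apply, GeneralLinearGroup.map_apply,
          GeneralLinearGroup.map_apply, GeneralLinearGroup.map_apply,
          Ideal.Quotient.factor_mk, Ideal.Quotient.factor_mk]
      rw [h2, h3, mul_inv_cancel]
    have h2 : ∀ i : S, ∃ X : Matrix n n A, (∀ a b, X a b ∈ I) ∧ ∀ a b,
        Ideal.Quotient.mk (𝔪 ^ k) (X a b) =
        (vl (β (g i) * (GeneralLinearGroup.map (n := n) (Ideal.Quotient.mk (𝔪 ^ k)) (φ i))⁻¹)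
          - 1) a b := by
      intro i
      have h3 := mem_ker_map.1 (h1 i)
      have h4 : ∀ a b, ∃ x ∈ I, Ideal.Quotient.mk (𝔪 ^ k) x =
          (vl (β (g i) * (GeneralLinearGroup.map (n := n) (Ideal.Quotient.mk (𝔪 ^ k)) (φ i))⁻¹)
          - 1) a b := by
        intro a b
        obtain ⟨y, hy⟩ := Ideal.Quotient.mk_surjective ((vl (β (g i) *
          (GeneralLinearGroup.map (n := n) (Ideal.Quotient.mk (𝔪 ^ k)) (φ i))⁻¹) - 1) a b)
        have h5 := h3 a b
        rw [← hy, RingHom.mem_ker, Ideal.Quotient.factor_mk, Ideal.Quotient.eq_zero_iff_mem] at h5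
        obtain ⟨x, hx, z, hz, hxz⟩ := Submodule.mem_sup.1 h5
        refine ⟨x, hx, ?_⟩
        rw [← hy, ← hxz, map_add, Ideal.Quotient.eq_zero_iff_mem.2 hz, add_zero]
      choose x hx hx' using h4
      exact ⟨Matrix.of x, hx, hx'⟩
    choose X hXI hX using h2
    refine ⟨X, fun i a b => hXI i a b, ?_⟩
    intro w hw a b
    obtain ⟨h3, h4⟩ := lift_oneAdd hI φ X hXI w
    -- the corrected representation reduces to `β`
    have h5 : ∀ w, GeneralLinearGroup.map (n := n) (Ideal.Quotient.mk (𝔪 ^ k))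
        (FreeGroup.lift (fun i => oneAdd hI (X i) (hXI i) * φ i) w) =
        β (FreeGroup.lift g w) := by
      intro w
      have : (GeneralLinearGroup.map (n := n) (Ideal.Quotient.mk (𝔪 ^ k))).comp
          (FreeGroup.lift (fun i => oneAdd hI (X i) (hXI i) * φ i)) =
          β.comp (FreeGroup.lift g) := by
        ext1 i
        rw [MonoidHom.comp_apply, MonoidHom.comp_apply, FreeGroup.lift_apply_of,
          FreeGroup.lift_apply_of, map_mul]
        have h6 : GeneralLinearGroup.map (n := n) (Ideal.Quotient.mk (𝔪 ^ k))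
            (oneAdd hI (X i) (hXI i)) = β (g i) * (GeneralLinearGroup.map (n := n)
            (Ideal.Quotient.mk (𝔪 ^ k)) (φ i))⁻¹ := by
          ext a b
          rw [GeneralLinearGroup.map_apply]
          change Ideal.Quotient.mk (𝔪 ^ k) ((1 + X i) a b) = _
          rw [Matrix.add_apply, map_add, hX, Matrix.sub_apply]
          have h7 : Ideal.Quotient.mk (𝔪 ^ k) ((1 : Matrix n n A) a b) =
              (1 : Matrix n n (A ⧸ 𝔪 ^ k)) a b := by
            rw [Matrix.one_apply, Matrix.one_apply]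
            split_ifs <;> simp
          rw [h7]
          ring
        rw [h6, inv_mul_cancel_right]
      exact DFunLike.congr_fun this w
    have h6 : FreeGroup.lift (fun i => oneAdd hI (X i) (hXI i) * φ i) w ∈
        (GeneralLinearGroup.map (n := n) (Ideal.Quotient.mk (𝔪 ^ k))).ker := by
      rw [MonoidHom.mem_ker, h5, (show FreeGroup.lift g w = 1 from hw), map_one]
    rw [mem_ker_map, Ideal.mk_ker, h4] at h6
    have h7 : (1 + L φ w X) * vl (FreeGroup.lift φ w) - 1 =
        L φ w X + (vl (FreeGroup.lift φ w) - 1) := by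
      have h8 : L φ w X * (vl (FreeGroup.lift φ w) - 1) = 0 := mul_zero_I hI h3 (hR w hw)
      calc (1 + L φ w X) * vl (FreeGroup.lift φ w) - 1
          = L φ w X + (vl (FreeGroup.lift φ w) - 1) +
            L φ w X * (vl (FreeGroup.lift φ w) - 1) := by noncomm_ring
        _ = _ := by rw [h8, add_zero]
    rw [h7] at h6
    exact h6 a b
  obtain ⟨X, hXP, hX⟩ := hmain
  have hXI : ∀ i a b, X i a b ∈ I := hXP
  let ψ : S → GL n A := fun i => oneAdd hI (X i) (hXI i) * φ i
  have hψR : (FreeGroup.lift g).ker ≤ (FreeGroup.lift ψ).ker := by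
    intro w hw
    rw [MonoidHom.mem_ker] at hw ⊢
    have hw' : w ∈ R := hw
    obtain ⟨h3, h4⟩ := lift_oneAdd hI φ X hXI w
    apply Units.ext
    change vl (FreeGroup.lift ψ w) = _
    rw [h4, hX w hw', Units.val_one]
    have h8 : (vl (FreeGroup.lift φ w) - 1) * (vl (FreeGroup.lift φ w) - 1) = 0 :=
      mul_zero_I hI (hR w hw') (hR w hw')
    calc (1 + (1 - vl (FreeGroup.lift φ w))) * vl (FreeGroup.lift φ w)
        = 1 - (vl (FreeGroup.lift φ w) - 1) * (vl (FreeGroup.lift φ w) - 1) := by noncomm_ring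
      _ = 1 := by rw [h8, sub_zero]
  refine ⟨(FreeGroup.lift g).liftOfSurjective hgs ⟨FreeGroup.lift ψ, hψR⟩, ?_⟩
  rw [← MonoidHom.cancel_right hgs, MonoidHom.comp_assoc]
  have h9 : ((FreeGroup.lift g).liftOfSurjective hgs ⟨FreeGroup.lift ψ, hψR⟩).comp
      (FreeGroup.lift g) = FreeGroup.lift ψ := MonoidHom.liftOfRightInverse_comp _ _ _ _
  rw [h9]
  ext1 i
  rw [MonoidHom.comp_apply, MonoidHom.comp_apply, FreeGroup.lift_apply_of,
    FreeGroup.lift_apply_of, map_mul, hφ]
  have h10 : GeneralLinearGroup.map (n := n) (Ideal.Quotient.mk I)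
      (oneAdd hI (X i) (hXI i)) = 1 := by
    rw [← MonoidHom.mem_ker, mem_ker_map, Ideal.mk_ker]
    intro a b
    change (1 + X i - 1) a b ∈ I
    rw [add_sub_cancel_left]
    exact hXI i a b
  rw [h10, one_mul]

end Pool.Agent.Lib.MP_305fdd_al.Rep
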