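import Pool.Agent.Lib.MP_305fdd_al.Rep.Lifting

/-!
# MP_305fdd_al: the transfer theorem for lifting representations
-/

set_option autoImplicit false

namespace Pool.Agent.Lib.MP_305fdd_al.Rep

open Matrix Pool.Agent.MP_305fdd_al

universe u v

variable {n : Type v} [Fintype n] [DecidableEq n]

/-- representations of `Γ` lift along square-zero surjections of finite rings in which the elements
of `M` are invertible -/
def LiftsFinite (n : Type v) [Fintype n] [DecidableEq n] (b : Prop) (M : Set ℕ) (Γ : Type)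
    [Group Γ] : Prop :=
  ∀ (A B : Type u) [CommRing A] [CommRing B] [Finite A] [Finite B] (f : A →+* B),
    Function.Surjective f → RingHom.ker f ^ 2 = ⊥ → (∀ m ∈ M, IsUnit (m : A)) →
    ∀ α : Γ →* GL n B, Sp b α.range →
      ∃ β : Γ →* GL n A, (GeneralLinearGroup.map (n := n) f).comp β = α

theorem LiftsFinite.transfer {b : Prop} {M : Set ℕ} {Λ Γ : Type} [Group Λ] [Group Γ]
    [Group.FG Λ] [Group.FG Γ] (h : SameFiniteQuotients Λ Γ)
    (hΓ : LiftsFinite.{u, v} n b M Γ) : LiftsFinite.{u, v} n b M Λ := by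
  intro A B _ _ _ _ f hf hk hM
  have hcop := lift_transfer_u (E' := ULift.{u} (GL n A)) (E := ULift.{u} (GL n B)) h
    ((MulEquiv.ulift.symm.toMonoidHom.comp (GeneralLinearGroup.map (n := n) f)).comp
      MulEquiv.ulift.toMonoidHom) (fun S => Sp b (S.map MulEquiv.ulift.toMonoidHom)) (by
      intro α hα
      obtain ⟨β, hβ⟩ := hΓ A B f hf hk hM (MulEquiv.ulift.toMonoidHom.comp α)
        (by rw [MonoidHom.range_comp]; exact hα)
      refine ⟨MulEquiv.ulift.symm.toMonoidHom.comp β, ?_⟩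
      ext1 x
      have := DFunLike.congr_fun hβ x
      exact MulEquiv.ulift.injective this)
  intro α hα
  obtain ⟨β, hβ⟩ := hcop (MulEquiv.ulift.symm.toMonoidHom.comp α) (by
    rw [← MonoidHom.range_comp]
    exact hα)
  refine ⟨MulEquiv.ulift.toMonoidHom.comp β, ?_⟩
  ext1 x
  have := DFunLike.congr_fun hβ x
  exact MulEquiv.ulift.symm.injective this

theorem lift_fg {b : Prop} {M : Set ℕ} {Λ : Type} [Group Λ] [Group.FG Λ]
    (hΛ : LiftsFinite.{u, v} n b M Λ) {A : Type u} [CommRing A] [Algebra.FiniteType ℤ A]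
    {I : Ideal A} (hI : I ^ 2 = ⊥) (hM : ∀ m ∈ M, IsUnit (m : A)) (θ : Λ →* GL n (A ⧸ I))
    (hθ : Sp b θ.range) :
    ∃ ρ : Λ →* GL n A, (GeneralLinearGroup.map (n := n) (Ideal.Quotient.mk I)).comp ρ = θ := by
  have : IsNoetherianRing A := Algebra.FiniteType.isNoetherianRing ℤ A
  apply lift_local_global hI
  intro 𝔪 hm k
  have hfin : Finite (A ⧸ 𝔪 ^ k) := finite_quotient_pow A 𝔪 hm k
  have hsurj : Function.Surjective
      (Ideal.Quotient.factor (le_sup_right : 𝔪 ^ k ≤ I ⊔ 𝔪 ^ k)) :=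
    Ideal.Quotient.factor_surjective _
  have hsurj' : Function.Surjective
      (Ideal.Quotient.factor (le_sup_left : I ≤ I ⊔ 𝔪 ^ k)) :=
    Ideal.Quotient.factor_surjective _
  have hfin' : Finite (A ⧸ (I ⊔ 𝔪 ^ k)) := Finite.of_surjective _ hsurj
  apply hΛ _ _ _ hsurj
  · rw [eq_bot_iff, pow_two, Ideal.mul_le]
    have h1 : ∀ x ∈ RingHom.ker (Ideal.Quotient.factor (le_sup_right : 𝔪 ^ k ≤ I ⊔ 𝔪 ^ k)),
        ∃ y ∈ I, Ideal.Quotient.mk (𝔪 ^ k) y = x := by
      intro x hx
      obtain ⟨x, rfl⟩ := Ideal.Quotient.mk_surjective x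
      rw [RingHom.mem_ker, Ideal.Quotient.factor_mk, Ideal.Quotient.eq_zero_iff_mem] at hx
      obtain ⟨y, hy, z, hz, rfl⟩ := Submodule.mem_sup.1 hx
      exact ⟨y, hy, by rw [map_add, Ideal.Quotient.eq_zero_iff_mem.2 hz, add_zero]⟩
    intro x hx y hy
    obtain ⟨x, hx', rfl⟩ := h1 x hx
    obtain ⟨y, hy', rfl⟩ := h1 y hy
    have h2 : x * y ∈ I ^ 2 := by rw [pow_two]; exact Ideal.mul_mem_mul hx' hy'
    rw [hI] at h2
    rw [← map_mul, (Submodule.mem_bot A).1 h2, map_zero]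
    exact zero_mem _
  · intro m hmM
    have := (hM m hmM).map (Ideal.Quotient.mk (𝔪 ^ k))
    rwa [map_natCast] at this
  · rw [MonoidHom.range_comp]
    exact hθ.map hsurj'

theorem lift_sq {b : Prop} {M : Set ℕ} (hMf : M.Finite) {Λ : Type} [Group Λ] [Group.FG Λ]
    (hΛ : LiftsFinite.{u, v} n b M Λ) {A : Type u} [CommRing A]
    {I : Ideal A} (hI : I ^ 2 = ⊥) (hM : ∀ m ∈ M, IsUnit (m : A)) (θ : Λ →* GL n (A ⧸ I))
    (hθ : Sp b θ.range) :
    ∃ ρ : Λ →* GL n A, (GeneralLinearGroup.map (n := n) (Ideal.Quotient.mk I)).comp ρ = θ := by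
  classical
  obtain ⟨S, hS⟩ := Group.fg_def.1 (inferInstance : Group.FG Λ)
  have hkerI : RingHom.ker (Ideal.Quotient.mk I) ^ 2 = ⊥ := by rw [Ideal.mk_ker]; exact hI
  have hsurjI := GL_map_surjective (n := n) (Ideal.Quotient.mk_surjective (I := I)) ⟨2, hkerI⟩
  choose φ hφ using fun i : S => hsurjI (θ (i : Λ))
  obtain ⟨F₁, hF₁, hF₁'⟩ := exists_coeffs (Ideal.Quotient.mk_surjective (I := I)) θ hθ
  choose! iv hiv using fun m (hm : m ∈ M) => (hM m hm).exists_right_inv
  let F : Set A := F₁ ∪ (iv '' M ∪ ((Set.range fun p : S × n × n => vl (φ p.1) p.2.1 p.2.2) ∪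
    (Set.range fun p : S × n × n => vl (φ p.1)⁻¹ p.2.1 p.2.2)))
  have hF : F.Finite := hF₁.union ((hMf.image _).union
    ((Set.finite_range _).union (Set.finite_range _)))
  let A₀ : Subalgebra ℤ A := Algebra.adjoin ℤ F
  have hFA : F ⊆ A₀ := Algebra.subset_adjoin
  have hft : Algebra.FiniteType ℤ A₀ := by
    rw [← Subalgebra.fg_iff_finiteType]
    exact ⟨hF.toFinset, by rw [Set.Finite.coe_toFinset]⟩
  let I₀ : Ideal A₀ := I.comap (algebraMap A₀ A)
  have hinj : Function.Injective (algebraMap A₀ A) := Subtype.val_injective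
  let j : A₀ ⧸ I₀ →+* A ⧸ I := Ideal.quotientMap I (algebraMap A₀ A) le_rfl
  have hj : Function.Injective j := Ideal.quotientMap_injective
  have hjmk : ∀ x, j (Ideal.Quotient.mk I₀ x) = Ideal.Quotient.mk I (x : A) := fun x => rfl
  have hI₀ : I₀ ^ 2 = ⊥ := by
    rw [eq_bot_iff, pow_two, Ideal.mul_le]
    intro x hx y hy
    have h2 : (x : A) * (y : A) ∈ I ^ 2 := by rw [pow_two]; exact Ideal.mul_mem_mul hx hy
    rw [hI] at h2
    rw [Submodule.mem_bot]
    apply hinj
    rw [map_mul, map_zero]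
    exact (Submodule.mem_bot A).1 h2
  have hM₀ : ∀ m ∈ M, IsUnit (m : A₀) := by
    intro m hm
    have h1 : iv m ∈ A₀ := hFA (Or.inr (Or.inl ⟨m, hm, rfl⟩))
    refine IsUnit.of_mul_eq_one ⟨iv m, h1⟩ ?_
    apply hinj
    rw [map_mul, map_natCast, map_one]
    exact hiv m hm
  -- the generators over `A₀`
  have hφ₀ : ∀ i : S, ∃ ψ : GL n A₀, GeneralLinearGroup.map (n := n) (algebraMap A₀ A) ψ =
      φ i := by
    intro i
    let U : Matrix n n A₀ := Matrix.of fun a b => ⟨vl (φ i) a b,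
      hFA (Or.inr (Or.inr (Or.inl ⟨(i, a, b), rfl⟩)))⟩
    let V : Matrix n n A₀ := Matrix.of fun a b => ⟨vl (φ i)⁻¹ a b,
      hFA (Or.inr (Or.inr (Or.inr ⟨(i, a, b), rfl⟩)))⟩
    have hU : (algebraMap A₀ A).mapMatrix U = vl (φ i) := by ext a b; rfl
    have hV : (algebraMap A₀ A).mapMatrix V = vl (φ i)⁻¹ := by ext a b; rfl
    have hinj' : Function.Injective ((algebraMap A₀ A).mapMatrix : Matrix n n A₀ →+* _) :=
      Matrix.map_injective hinj
    have hUV : U * V = 1 := by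
      apply hinj'
      rw [map_mul, hU, hV, map_one, ← Units.val_mul, mul_inv_cancel, Units.val_one]
    have hVU : V * U = 1 := by
      apply hinj'
      rw [map_mul, hU, hV, map_one, ← Units.val_mul, inv_mul_cancel, Units.val_one]
    exact ⟨⟨U, V, hUV, hVU⟩, by ext a b; rfl⟩
  choose ψ hψ using hφ₀
  have hjinj : Function.Injective (GeneralLinearGroup.map (n := n) j) := by
    intro x y hxy
    ext a b
    apply hj
    rw [← GeneralLinearGroup.map_apply, hxy, GeneralLinearGroup.map_apply]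
  have hrange : θ.range ≤ (GeneralLinearGroup.map (n := n) j).range := by
    rw [MonoidHom.range_eq_map, ← hS, MonoidHom.map_closure, Subgroup.closure_le]
    rintro _ ⟨i, hi, rfl⟩
    refine ⟨GeneralLinearGroup.map (n := n) (Ideal.Quotient.mk I₀) (ψ ⟨i, hi⟩), ?_⟩
    rw [← hφ ⟨i, hi⟩, ← hψ ⟨i, hi⟩]
    ext a b
    rfl
  have hex : ∀ x : Λ, ∃ y, GeneralLinearGroup.map (n := n) j y = θ x := fun x =>
    hrange ⟨x, rfl⟩
  choose t ht using hex
  let θ₀ : Λ →* GL n (A₀ ⧸ I₀) :=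
    { toFun := t
      map_one' := by apply hjinj; rw [ht, map_one, map_one]
      map_mul' := fun x y => by apply hjinj; rw [ht, map_mul, map_mul, ht, ht] }
  have hθ₀ : (GeneralLinearGroup.map (n := n) j).comp θ₀ = θ := by
    ext1 x
    exact ht x
  have hSp : Sp b θ₀.range := hF₁' _ j hj (fun x hx =>
    ⟨Ideal.Quotient.mk I₀ ⟨x, hFA (Or.inl hx)⟩, rfl⟩) θ₀ hθ₀
  obtain ⟨ρ₀, hρ₀⟩ := lift_fg hΛ hI₀ hM₀ θ₀ hSp
  refine ⟨(GeneralLinearGroup.map (n := n) (algebraMap A₀ A)).comp ρ₀, ?_⟩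
  rw [← hθ₀, ← hρ₀]
  ext1 x
  ext a b
  rfl

/-- **Transfer theorem.** -/
theorem lift_nilpotent {b : Prop} {M : Set ℕ} (hMf : M.Finite) {Λ : Type} [Group Λ] [Group.FG Λ]
    (hΛ : LiftsFinite.{u, v} n b M Λ) {A B : Type u} [CommRing A] [CommRing B] (f : A →+* B)
    (hf : Function.Surjective f) (hn : IsNilpotent (RingHom.ker f))
    (hM : ∀ m ∈ M, IsUnit (m : A)) (θ : Λ →* GL n B) (hθ : Sp b θ.range) :
    ∃ ρ : Λ →* GL n A, (GeneralLinearGroup.map (n := n) f).comp ρ = θ := by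
  obtain ⟨k, hk⟩ := hn
  rw [Ideal.zero_eq_bot] at hk
  -- the square-zero case for `f`
  have sq : ∀ {A B : Type u} [CommRing A] [CommRing B] (f : A →+* B),
      Function.Surjective f → RingHom.ker f ^ 2 = ⊥ → (∀ m ∈ M, IsUnit (m : A)) →
      ∀ θ : Λ →* GL n B, Sp b θ.range →
      ∃ ρ : Λ →* GL n A, (GeneralLinearGroup.map (n := n) f).comp ρ = θ := by
    intro A B _ _ f hf hk hM θ hθ
    let e : A ⧸ RingHom.ker f ≃+* B := RingHom.quotientKerEquivOfSurjective hf
    have h1 : Sp b ((GeneralLinearGroup.map (n := n) e.symm.toRingHom).comp θ).range := by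
      rw [MonoidHom.range_comp]
      exact hθ.map e.symm.surjective
    obtain ⟨ρ, hρ⟩ := lift_sq hMf hΛ hk hM
      ((GeneralLinearGroup.map (n := n) e.symm.toRingHom).comp θ) h1
    refine ⟨ρ, ?_⟩
    ext1 x
    have h2 := DFunLike.congr_fun hρ x
    ext a c
    have h3 := congrArg (fun g : GL n (A ⧸ RingHom.ker f) => e (g a c)) h2
    change f (ρ x a c) = θ x a c
    have h4 : e (e.symm (θ x a c)) = θ x a c := e.apply_symm_apply _
    rw [← h4]
    exact h3
  -- induction on the nilpotency exponent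
  induction k using Nat.strong_induction_on generalizing A B with
  | _ k ih =>
    by_cases hk2 : k ≤ 2
    · refine sq f hf ?_ hM θ hθ
      rw [eq_bot_iff, ← hk]
      exact Ideal.pow_le_pow_right hk2
    · push Not at hk2
      let J : Ideal A := RingHom.ker f ^ (k - 1)
      have hJ : J ^ 2 = ⊥ := by
        rw [eq_bot_iff, ← hk, ← pow_mul]
        exact Ideal.pow_le_pow_right (by omega)
      have hJle : J ≤ RingHom.ker f := Ideal.pow_le_self (by omega)
      let f' : A ⧸ J →+* B := Ideal.Quotient.lift J f (fun a ha => hJle ha)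
      have hf' : Function.Surjective f' := Ideal.Quotient.lift_surjective_of_surjective J _ hf
      have hker : RingHom.ker f' ^ (k - 1) = ⊥ := by
        have h1 : RingHom.ker f' = (RingHom.ker f).map (Ideal.Quotient.mk J) := by
          ext x
          obtain ⟨x, rfl⟩ := Ideal.Quotient.mk_surjective x
          rw [RingHom.mem_ker, Ideal.mem_map_iff_of_surjective _ Ideal.Quotient.mk_surjective]
          constructor
          · intro hx
            exact ⟨x, hx, rfl⟩
          · rintro ⟨y, hy, hyx⟩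
            rw [← hyx]
            exact hy
        rw [h1, ← Ideal.map_pow]
        exact Ideal.map_quotient_self _
      obtain ⟨ρ₁, hρ₁⟩ := ih (k - 1) (by omega) f' hf' (by
        intro m hm
        have := (hM m hm).map (Ideal.Quotient.mk J)
        rwa [map_natCast] at this) θ hθ hker
      have hSp : Sp b ρ₁.range := by
        apply Sp.of_lift hf' ⟨k - 1, hker⟩
        rw [← MonoidHom.range_comp, hρ₁]
        exact hθ
      obtain ⟨ρ, hρ⟩ := sq (Ideal.Quotient.mk J) Ideal.Quotient.mk_surjective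
        (by rw [Ideal.mk_ker]; exact hJ) hM ρ₁ hSp
      refine ⟨ρ, ?_⟩
      rw [← hρ₁, ← hρ]
      ext1 x
      ext a c
      rfl

end Pool.Agent.Lib.MP_305fdd_al.Rep
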