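import Pool.Agent.Lib.MP_305fdd_al.Rep.Core

/-!
# MP_305fdd_al: the general linear group and nilpotent extensions
-/

set_option autoImplicit false

namespace Pool.Agent.Lib.MP_305fdd_al.Rep

open Matrix

variable {A B : Type*} [CommRing A] [CommRing B] {n : Type*} [Fintype n] [DecidableEq n]

theorem isUnit_of_map {f : A →+* B} (hf : Function.Surjective f)
    (hn : ∃ k : ℕ, RingHom.ker f ^ k = ⊥) {a : A} (ha : IsUnit (f a)) : IsUnit a := by
  obtain ⟨k, hk⟩ := hn
  obtain ⟨b, hb⟩ := ha.exists_right_inv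
  obtain ⟨c, rfl⟩ := hf b
  have h1 : 1 - a * c ∈ RingHom.ker f := by
    rw [RingHom.mem_ker, map_sub, map_one, map_mul, hb, sub_self]
  have h2 : (1 - a * c) ^ k = 0 := by
    have := Ideal.pow_mem_pow h1 k
    rw [hk] at this
    simpa using this
  have h3 : IsUnit (a * c) := by
    have h4 : IsNilpotent (1 - a * c) := ⟨k, h2⟩
    have := h4.isUnit_one_sub
    simpa using this
  exact isUnit_of_mul_isUnit_left h3

theorem GL_map_surjective {f : A →+* B} (hf : Function.Surjective f)
    (hn : ∃ k : ℕ, RingHom.ker f ^ k = ⊥) :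
    Function.Surjective (GeneralLinearGroup.map (n := n) f) := by
  intro g
  choose c hc using hf
  let M : Matrix n n A := Matrix.of fun a b => c ((g : Matrix n n B) a b)
  have hM : f.mapMatrix M = (g : Matrix n n B) := by
    ext a b
    simp [M, hc]
  have hdet : IsUnit M.det := by
    apply isUnit_of_map (fun b => ⟨c b, hc b⟩) hn
    rw [RingHom.map_det, hM]
    exact (Matrix.isUnit_iff_isUnit_det _).1 g.isUnit
  refine ⟨Matrix.GeneralLinearGroup.mk'' M hdet, ?_⟩
  ext a b
  rw [GeneralLinearGroup.map_apply]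
  change f (M a b) = _
  exact hc _

theorem mem_ker_map {f : A →+* B} {g : GL n A} :
    g ∈ (GeneralLinearGroup.map (n := n) f).ker ↔
      ∀ a b, (vl g - 1) a b ∈ RingHom.ker f := by
  rw [MonoidHom.mem_ker]
  constructor
  · intro h a b
    rw [RingHom.mem_ker, Matrix.sub_apply, map_sub, ← GeneralLinearGroup.map_apply, h]
    rw [Units.val_one, Matrix.one_apply, Matrix.one_apply]
    split_ifs <;> simp
  · intro h
    ext a b
    have := h a b
    rw [RingHom.mem_ker, Matrix.sub_apply, map_sub, ← GeneralLinearGroup.map_apply,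
      sub_eq_zero] at this
    rw [this]
    rw [Units.val_one, Matrix.one_apply, Matrix.one_apply]
    split_ifs <;> simp

theorem ker_map_comm {f : A →+* B} (hI : RingHom.ker f ^ 2 = ⊥) :
    ∀ x ∈ (GeneralLinearGroup.map (n := n) f).ker, ∀ y ∈ (GeneralLinearGroup.map (n := n) f).ker,
      x * y = y * x := by
  intro x hx y hy
  rw [mem_ker_map] at hx hy
  have h1 := mul_zero_I hI hx hy
  have h2 := mul_zero_I hI hy hx
  apply Units.ext
  rw [Units.val_mul, Units.val_mul]
  have h3 : vl x * vl y = (vl x - 1) * (vl y - 1) + vl x + vl y - 1 := by noncomm_ring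
  have h4 : vl y * vl x = (vl y - 1) * (vl x - 1) + vl x + vl y - 1 := by noncomm_ring
  change vl x * vl y = vl y * vl x
  rw [h3, h4, h1, h2]

theorem pow_one_add {I : Ideal A} (hI : I ^ 2 = ⊥) {X : Matrix n n A} (hX : ∀ a b, X a b ∈ I)
    (k : ℕ) : (1 + X) ^ k = 1 + (k : A) • X := by
  induction k with
  | zero => simp
  | succ k ih =>
    have hXX := mul_zero_I hI hX hX
    rw [pow_succ, ih, mul_add, mul_one, add_mul, one_mul, Matrix.smul_mul, hXX, smul_zero,
      add_zero, Nat.cast_succ, add_smul, one_smul, add_assoc]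

theorem ker_map_div {f : A →+* B} (hI : RingHom.ker f ^ 2 = ⊥) {k : ℕ} (hk : IsUnit (k : A)) :
    ∀ x ∈ (GeneralLinearGroup.map (n := n) f).ker,
      ∃ y ∈ (GeneralLinearGroup.map (n := n) f).ker, y ^ k = x := by
  intro x hx
  obtain ⟨u, hu⟩ := hk.exists_right_inv
  rw [mem_ker_map] at hx
  have hX : ∀ a b, (u • (vl x - 1)) a b ∈ RingHom.ker f := by
    intro a b
    rw [Matrix.smul_apply, smul_eq_mul]
    exact Ideal.mul_mem_left _ _ (hx a b)
  refine ⟨oneAdd hI (u • (vl x - 1)) hX, ?_, ?_⟩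
  · rw [mem_ker_map]
    intro a b
    change (1 + u • (vl x - 1) - 1) a b ∈ _
    rw [add_sub_cancel_left]
    exact hX a b
  · apply Units.ext
    rw [Units.val_pow_eq_pow_val]
    change (1 + u • (vl x - 1)) ^ k = vl x
    rw [pow_one_add hI hX, smul_smul, hu, one_smul]
    abel

theorem ker_map_inj {f : A →+* B} (hI : RingHom.ker f ^ 2 = ⊥) {k : ℕ} (hk : IsUnit (k : A)) :
    ∀ x ∈ (GeneralLinearGroup.map (n := n) f).ker, x ^ k = 1 → x = 1 := by
  intro x hx hxk
  obtain ⟨u, hu⟩ := hk.exists_left_inv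
  rw [mem_ker_map] at hx
  have h1 : (1 + (vl x - 1)) ^ k = 1 + (k : A) • (vl x - 1) := pow_one_add hI hx k
  have h2 : (1 + (vl x - 1)) ^ k = 1 := by
    have : (1 + (vl x - 1)) = vl x := by abel
    rw [this, ← Units.val_pow_eq_pow_val, hxk, Units.val_one]
  rw [h2] at h1
  have h3 : (k : A) • (vl x - 1) = 0 := by
    have := h1.symm
    rwa [add_eq_left] at this
  have h4 : (vl x - 1) = 0 := by
    have := congrArg (fun M => u • M) h3
    simp only [smul_smul, hu, one_smul, smul_zero] at this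
    exact this
  apply Units.ext
  rw [Units.val_one]
  exact sub_eq_zero.1 h4

end Pool.Agent.Lib.MP_305fdd_al.Rep
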